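import Pool.Agent.E8helper36.CF.Stm

set_option autoImplicit false

namespace Pool.Agent.E8helper88.CF

open Pool.Agent.E8helper36.CF

variable {n : ℕ}

theorem sh_inv (s : ℕ) (i : Fin (2 * n)) : sh n ((2 * n - 1) * s) (sh n s i) = i := by
  apply Fin.ext
  have hi := i.2
  change (((i : ℕ) + s) % (2 * n) + (2 * n - 1) * s) % (2 * n) = i
  have h1 : (2 * n - 1) * s + s = 2 * n * s := by
    have : 2 * n = (2 * n - 1) + 1 := by omega
    conv_rhs => rw [this]
    ring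
  rw [Nat.mod_add_mod, show (i : ℕ) + s + (2 * n - 1) * s = i + ((2 * n - 1) * s + s) by ring, h1,
    Nat.add_mul_mod_self_left, Nat.mod_eq_of_lt hi]

theorem sh_inv' (s : ℕ) (i : Fin (2 * n)) : sh n s (sh n ((2 * n - 1) * s) i) = i := by
  apply Fin.ext
  have hi := i.2
  change (((i : ℕ) + (2 * n - 1) * s) % (2 * n) + s) % (2 * n) = i
  have h1 : (2 * n - 1) * s + s = 2 * n * s := by
    have : 2 * n = (2 * n - 1) + 1 := by omega
    conv_rhs => rw [this]
    ring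
  rw [Nat.mod_add_mod, add_assoc, h1, Nat.add_mul_mod_self_left, Nat.mod_eq_of_lt hi]

theorem ext_m {M N : Matching n} (h : ∀ i, M.m i = N.m i) : M = N := by
  cases M
  cases N
  congr
  exact funext h

theorem rot_unique {s : ℕ} {M M1 M2 : Matching n} (h1 : RotBy s M M1) (h2 : RotBy s M M2) :
    M1 = M2 := by
  apply ext_m
  intro j
  rw [← sh_inv' s j, h1, h2]

theorem rot_inv {s : ℕ} {M M1 : Matching n} (h : RotBy s M M1) :
    RotBy ((2 * n - 1) * s) M1 M := by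
  intro j
  have h1 := h (sh n ((2 * n - 1) * s) j)
  rw [sh_inv'] at h1
  rw [h1, sh_inv]

/-- paths of flips -/
def Nr : ℕ → Matching n → Matching n → Prop
  | 0, M, N => M = N
  | (k + 1), M, N => ∃ L, CF M L ∧ Nr k L N

theorem nr_rot (hR : S_ROT) (hn : Odd n) {s : ℕ} : ∀ (k : ℕ) (M N M1 N1 : Matching n),
    RotBy s M M1 → RotBy s N N1 → Nr k M N → Nr k M1 N1 := by
  intro k
  induction k with
  | zero =>
    intro M N M1 N1 h1 h2 h
    change M = N at h
    subst h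
    exact rot_unique h1 h2
  | succ k ih =>
    intro M N M1 N1 h1 h2 h
    obtain ⟨L, hL, hk⟩ := h
    obtain ⟨L1, hL1⟩ := (hR n s hn).1 L
    exact ⟨L1, (hR n s hn).2.1 M M1 L L1 h1 hL1 hL, ih L N L1 N1 hL1 h2 hk⟩

theorem cf_edist (hC : S_CEN) {M N : Matching n} (h : CF M N) : (H n).edist M N ≤ 1 := by
  by_cases hMN : M = N
  · rw [hMN, SimpleGraph.edist_self]
    exact zero_le_one
  · obtain ⟨a, b, c, d, h1, h2, h3, h4, h5, h6, h7, h8⟩ := h
    refine le_of_eq (SimpleGraph.edist_eq_one_iff_adj.2 ⟨hMN, a, b, c, d, h1, h2, h3, ?_, h8⟩)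
    exact hC n a b c d h1 h2 h3 d.2 h4 h5 h6 h7

theorem nr_edist (hC : S_CEN) : ∀ (k : ℕ) (M N : Matching n), Nr k M N →
    (H n).edist M N ≤ (k : ℕ∞) := by
  intro k
  induction k with
  | zero =>
    intro M N h
    change M = N at h
    rw [h, SimpleGraph.edist_self]
    exact zero_le
  | succ k ih =>
    intro M N h
    obtain ⟨L, hL, hk⟩ := h
    calc (H n).edist M N ≤ (H n).edist M L + (H n).edist L N := SimpleGraph.edist_triangle
      _ ≤ 1 + (k : ℕ∞) := add_le_add (cf_edist hC hL) (ih L N hk)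
      _ = ((k + 1 : ℕ) : ℕ∞) := by push_cast; rw [add_comm]

theorem dm_rot {s : ℕ} {N N1 : Matching n} (h : RotBy s N N1) (hD : Dm N) : Dm N1 := by
  obtain ⟨i, hi⟩ := hD
  have hi2 := (N.m i).2
  have h1 := h i
  have h2 : ((N1.m (sh n s i) : Fin (2 * n)) : ℕ) = ((i : ℕ) + n + s) % (2 * n) := by
    rw [h1]
    change ((N.m i : ℕ) + s) % (2 * n) = _
    rw [hi]
  have h3 : ((sh n s i : Fin (2 * n)) : ℕ) = ((i : ℕ) + s) % (2 * n) := rfl
  have hn : 0 < n := by omega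
  have h4 : ((i : ℕ) + n + s) % (2 * n) = (((i : ℕ) + s) % (2 * n) + n) % (2 * n) := by
    rw [Nat.mod_add_mod]
    congr 1
    ring
  rw [h4, ← h3] at h2
  have h5 := (sh n s i).2
  rcases Nat.lt_or_ge ((sh n s i : Fin (2 * n)) : ℕ) n with h6 | h6
  · refine ⟨sh n s i, ?_⟩
    rw [h2, Nat.mod_eq_of_lt (by omega)]
  · refine ⟨N1.m (sh n s i), ?_⟩
    rw [N1.inv, h2]
    have h7 : ((sh n s i : Fin (2 * n)) : ℕ) + n = (((sh n s i : Fin (2 * n)) : ℕ) - n) + 2 * n := by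
      omega
    rw [h7, Nat.add_mod_right, Nat.mod_eq_of_lt (by omega)]
    omega

theorem claim (hR : S_ROT) (hU : S_UST) (hT : S_TOP) (hn : Odd n) (h3 : 3 ≤ n) :
    ∀ (t : ℕ) (M : Matching n), Nrm M →
      (∀ z : Fin (2 * n), Top M z → (z : ℕ) + 1 < n → n < (M.m z : ℕ) →
        (M.m z : ℕ) ≤ z + 2 * t + 3) →
      ∃ N : Matching n, Dm N ∧ ∃ k : ℕ, k ≤ t + 1 ∧ Nr k M N := by
  intro t
  induction t with
  | zero =>
    intro M hM hz
    rcases hU n hn h3 M hM with ⟨M', h1, h2⟩ | ⟨z, h1, h2, h4, -⟩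
    · exact ⟨M', h2, 1, le_rfl, M', h1, rfl⟩
    · exfalso
      have h5 := hz z h1 h2 h4
      have h6 := (hT n M z h1).1
      have hlt : z < M.m z := by
        rw [Fin.lt_def]; omega
      have h7 := parity M hlt rfl
      obtain ⟨r, hr⟩ := hn
      omega
  | succ t ih =>
    intro M hM hz
    rcases hU n hn h3 M hM with ⟨M', h1, h2⟩ | ⟨z, h1, h2, h4, M', M'', h5, h6, h7, h8⟩
    · exact ⟨M', h2, 1, by omega, M', h1, rfl⟩
    · have h9 := hz z h1 h2 h4
      obtain ⟨N'', hD, k, hk, hN⟩ := ih M'' h7 (fun z'' k1 k2 k3 => by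
        have := h8 z'' k1 k2 k3
        omega)
      have hinv := rot_inv h6
      obtain ⟨N', hN'⟩ := (hR n ((2 * n - 1) * (2 * n - 1)) hn).1 N''
      refine ⟨N', dm_rot hN' hD, k + 1, by omega, M', h5, ?_⟩
      exact nr_rot hR hn k M'' N'' M' N' hinv hN' hN

theorem t_UU (hC : S_CEN) (hR : S_ROT) (hN : S_NRM) (hU : S_UST) (hT : S_TOP) : S_UU := by
  intro n hn h5 M
  by_cases hD : Dm M
  · refine ⟨M, hD, ?_⟩
    rw [SimpleGraph.edist_self]
    exact zero_le
  · obtain ⟨s, hs⟩ := hN n hn M hD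
    obtain ⟨M1, hM1⟩ := (hR n s hn).1 M
    have hNrm := hs M1 hM1
    obtain ⟨N1, hDN, k, hk, hNr⟩ := claim hR hU hT hn (by omega) ((n - 5) / 2) M1 hNrm
      (fun z _ h2 h4 => by
        have h6 := hNrm z
        have hlt : z < M1.m z := by
          rw [Fin.lt_def]; omega
        have h7 := parity M1 hlt rfl
        obtain ⟨r, hr⟩ := hn
        omega)
    obtain ⟨N, hNN⟩ := (hR n ((2 * n - 1) * s) hn).1 N1
    refine ⟨N, dm_rot hNN hDN, ?_⟩
    refine (nr_edist hC k M N (nr_rot hR hn k M1 N1 M N (rot_inv hM1) hNN hNr)).trans ?_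
    exact_mod_cast (by omega : k ≤ (n - 3) / 2)

end Pool.Agent.E8helper88.CF
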