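import Pool.Agent.E8helper88.CF.UU3

set_option autoImplicit false

namespace Pool.Agent.E8helper88.CF

open Pool.Agent.E8helper36.CF

theorem t_UU2 (hC : S_CEN) (hR : S_ROT) (hN : S_NRM) (hT : S_TOP) (hU : S_UST2) (hH : S_CH2) :
    S_UU2 := by
  intro n hn h3 M
  obtain ⟨M', h1, h2⟩ := t_UU3 hC hR hN hT hU hH n hn h3 M
  rcases h1 with h1 | ⟨M'', h1, h4⟩
  · refine ⟨M', h1, h2.trans ?_⟩
    exact_mod_cast (by omega : (n - 3) / 6 ≤ (n + 3) / 6)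
  · refine ⟨M'', h4, ?_⟩
    calc (H n).edist M M'' ≤ (H n).edist M M' + (H n).edist M' M'' := SimpleGraph.edist_triangle
      _ ≤ (((n - 3) / 6 : ℕ) : ℕ∞) + 1 := add_le_add h2 (cf_edist hC h1)
      _ = ((((n - 3) / 6 + 1 : ℕ)) : ℕ∞) := by push_cast; rfl
      _ ≤ (((n + 3) / 6 : ℕ) : ℕ∞) := by
        exact_mod_cast (by omega : (n - 3) / 6 + 1 ≤ (n + 3) / 6)

end Pool.Agent.E8helper88.CF
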