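import Pool.Agent.E8helper36.CF.Stm3
import Pool.Agent.E8helper88.CF.UU

set_option autoImplicit false

namespace Pool.Agent.E8helper88.CF

open Pool.Agent.E8helper36.CF

variable {n : ℕ}

theorem near_rot (hR : S_ROT) (hn : Odd n) {s : ℕ} {N N1 : Matching n} (h : RotBy s N N1)
    (hD : Near N) : Near N1 := by
  rcases hD with hD | ⟨N', h1, h2⟩
  · exact Or.inl (dm_rot h hD)
  · obtain ⟨N1', h3⟩ := (hR n s hn).1 N'
    exact Or.inr ⟨N1', (hR n s hn).2.1 N N1 N' N1' h h3 h1, dm_rot h3 h2⟩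

theorem claim3 (hR : S_ROT) (hT : S_TOP) (hU : S_UST2) (hn : Odd n) (h3 : 3 ≤ n) :
    ∀ (t : ℕ) (M : Matching n), Nrm M →
      (∀ z : Fin (2 * n), Top M z → (z : ℕ) + 1 < n → n < (M.m z : ℕ) →
        (M.m z : ℕ) < n + 2 * (t + 1)) →
      ∃ N : Matching n, Near N ∧ ∃ k : ℕ, k ≤ t ∧ Nr k M N := by
  intro t
  induction t with
  | zero =>
    intro M hM hz
    rcases hU n hn h3 M hM with h1 | ⟨z, h1, h2, h4, -⟩
    · exact ⟨M, Or.inr h1, 0, le_rfl, rfl⟩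
    · exfalso
      have h5 := hz z h1 h2 h4
      have h6 := (hT n M z h1).1
      have hlt : z < M.m z := by
        rw [Fin.lt_def]; omega
      have h7 := parity M hlt rfl
      obtain ⟨r, hr⟩ := hn
      omega
  | succ t ih =>
    intro M hM hz
    rcases hU n hn h3 M hM with h1 | ⟨z, h1, h2, h4, M', M'', h5, h6, h7, h8⟩
    · exact ⟨M, Or.inr h1, 0, by omega, rfl⟩
    · have h9 := hz z h1 h2 h4
      obtain ⟨N'', hD, k, hk, hN⟩ := ih M'' h7 (fun z'' k1 k2 k3 => by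
        have := h8 z'' k1 k2 k3
        omega)
      have hinv := rot_inv h6
      obtain ⟨N', hN'⟩ := (hR n ((2 * n - 1) * (2 * n - 1)) hn).1 N''
      refine ⟨N', near_rot hR hn hN' hD, k + 1, by omega, M', h5, ?_⟩
      exact nr_rot hR hn k M'' N'' M' N' hinv hN' hN

theorem t_UU3 (hC : S_CEN) (hR : S_ROT) (hN : S_NRM) (hT : S_TOP) (hU : S_UST2) (hH : S_CH2) :
    S_UU3 := by
  intro n hn h3 M
  by_cases hD : Dm M
  · refine ⟨M, Or.inl hD, ?_⟩
    rw [SimpleGraph.edist_self]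
    exact zero_le
  · obtain ⟨s, hs⟩ := hN n hn M hD
    obtain ⟨M1, hM1⟩ := (hR n s hn).1 M
    have hNrm := hs M1 hM1
    obtain ⟨s2, hs2⟩ := hH n ((n + 3) / 6) hn h3 (by omega) M1 hNrm
    obtain ⟨M2, hM2⟩ := (hR n s2 hn).1 M1
    obtain ⟨hNrm2, hz⟩ := hs2 M2 hM2
    obtain ⟨N2, hDN, k, hk, hNr⟩ := claim3 hR hT hU hn h3 ((n - 3) / 6) M2 hNrm2
      (fun z h1 h2 h4 => by
        have h6 := hz z h1 h2 h4
        omega)
    obtain ⟨N1, hNN1⟩ := (hR n ((2 * n - 1) * s2) hn).1 N2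
    obtain ⟨N, hNN⟩ := (hR n ((2 * n - 1) * s) hn).1 N1
    refine ⟨N, near_rot hR hn hNN (near_rot hR hn hNN1 hDN), ?_⟩
    have e1 : Nr k M1 N1 := nr_rot hR hn k M2 N2 M1 N1 (rot_inv hM2) hNN1 hNr
    have e2 : Nr k M N := nr_rot hR hn k M1 N1 M N (rot_inv hM1) hNN e1
    refine (nr_edist hC k M N e2).trans ?_
    exact_mod_cast hk

end Pool.Agent.E8helper88.CF
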